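import Pool.Agent.helper69.Multibrot.GeoSeq

/-!
# Density of hyperbolicity of `z ^ n + c` along geometric sequences of parameters, for almost all
degrees `n`

`multibrot n` (`M_n`) and `hyperbolic n` (`H_n`) are defined in
`Pool/Agent/helper16/Multibrot/Defs.lean`; `exceptional a b`, `exceptionalAt c` and `BanachNull` in
`Pool/Agent/helper69/Multibrot/DegreeDefs.lean`.
-/

set_option autoImplicit false

namespace Pool.Agent.Results.MP_af9036_an.AlmostAllDegrees

open Pool.Agent.helper16.Multibrot Pool.Agent.helper69.MB

/-- For all complex numbers `a`, `b`, the set `exceptional a b` of the degrees `n` for which some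
solution `c` of `c ^ (n - 1) = a * b ^ n` is in `M_n` but is not a limit of hyperbolic parameters of
`z ^ n + c` contains at most four elements of each window of `D` consecutive integers far enough
from the origin, for every `D`; so it has upper Banach density zero. In particular this is the case
for the set `exceptionalAt c` of the degrees for which a given `c` is in `M_n` and is not a limit
of hyperbolic parameters (`a = 1 / c`, `b = c`), and for the analogous set of degrees of a given
value `u` of the invariant `c ^ (n - 1)` (`a = u`, `b = 1`). The first of these sets is finite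
unless `‖c‖ = 1` and `c` is not a root of unity, the second one is finite unless `‖1 + u‖ = 1` and
`1 + u` is not a root of unity. -/
theorem result :
    (∀ a b : ℂ, (∀ D : ℕ, ∃ N : ℕ, ∀ m : ℕ, N ≤ m →
        (exceptional a b ∩ Set.Ico m (m + D)).ncard ≤ 4) ∧ BanachNull (exceptional a b)) ∧
    (∀ c : ℂ, BanachNull (exceptionalAt c) ∧
      ((‖c‖ ≠ 1 ∨ ∃ q : ℕ, 0 < q ∧ c ^ q = 1) → (exceptionalAt c).Finite)) ∧
    (∀ u : ℂ, BanachNull (exceptional u 1) ∧
      ((‖1 + u‖ ≠ 1 ∨ ∃ q : ℕ, 0 < q ∧ (1 + u) ^ q = 1) → (exceptional u 1).Finite)) := by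
  refine ⟨fun a b => ⟨exceptional_sparse a b, (exceptional_sparse a b).banachNull⟩,
    fun c => ⟨?_, exceptionalAt_finite⟩,
    fun u => ⟨(exceptional_sparse u 1).banachNull, exceptional_one_finite⟩⟩
  have hsub : exceptionalAt c ⊆ exceptional c⁻¹ c := by
    rintro n ⟨hn2, hM, hH⟩
    refine ⟨hn2, c, ?_, hM, hH⟩
    by_cases hc : c = 0
    · rw [hc, zero_pow (by omega), zero_pow (by omega), mul_zero]
    · have : c ^ n = c * c ^ (n - 1) := by rw [← pow_succ']; congr 1; omega
      rw [this, inv_mul_cancel_left₀ hc]
  exact ((exceptional_sparse c⁻¹ c).mono hsub le_rfl).banachNull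

end Pool.Agent.Results.MP_af9036_an.AlmostAllDegrees
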