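import Pool.Agent.helper69.LN.MixPad
import Pool.Agent.helper69.LN.MixHalf2
import Pool.Agent.helper69.LN.MDefs
import Pool.Agent.helper69.LN.EAll

namespace Pool.Agent.helper69.Reserve.CliqueNegationsEverywhere

open Pool.Agent.helper38.Neg Pool.Agent.helper55.NT Pool.Agent.Mix
open Pool.Agent.LN (EEV_stmt eev mix_pad mix_half2)

/-- The clique function of graphs on `M` vertices, `n = M ^ 2` input bits (adjacency matrix), and
circuits of binary monotone real gates (counted) and arbitrary gates (free of charge; for example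
NOT gates).
(1) Global: at most `K ≤ n ^ (1 - ε)` patterns (tuples of the values read by arbitrary gates) along
every increasing sequence of inputs, `k ≤ M ^ δ`, for the `(k + j)`-clique function of graphs on
`M + j` vertices, every `j`. For circuits of AND, OR, NOT gates and constants (and `j = 0`) the
exponent is a little better.
(2) Local: `U` is any large set of edges, and there are at most `K ≤ |U| ^ (1 - ε)` patterns along
every increasing sequence of inputs which agree outside `U`.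
(3) Half clique, quasi-polynomial size: all edges but polylogarithmically many influence a value
that is read by an arbitrary gate. -/
theorem result :
    (∀ ε : ℝ, 0 < ε → ∃ δ : ℝ, 0 < δ ∧ ∃ M0 : ℕ, ∀ M : ℕ, M0 ≤ M → ∀ k : ℕ,
      (k : ℝ) ≤ (M : ℝ) ^ δ → ∀ s K : ℕ, (K : ℝ) ≤ ((M : ℝ) ^ 2) ^ (1 - ε) →
        (∀ (j : ℕ) (C : MixCircuit ((M + j) * (M + j)) s) (o : Fin ((M + j) * (M + j) + s)),
          C.Computes o (Clique (M + j) (k + j)) →
          (C.PatternsLE K ∨ (C.BoolReads ∧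
            (2 ^ C.reads.card ≤ K ∨ (C.MonoReads ∧ C.reads.card + 1 ≤ K)))) →
          (2 : ℝ) ^ (Real.sqrt k / 2 - 3) ≤ C.size + 1) ∧
        ∀ (C : Circuit (M * M) s) (o : Fin (M * M + s)), C.Computes o (Clique M k) →
          (2 ^ C.notCount ≤ K ∨ C.PatternsLE K) →
          (2 : ℝ) ^ (Real.sqrt ((k : ℝ) / 2) - 3) ≤ s + 1) ∧
    (∀ ε : ℝ, 0 < ε → ∃ δ : ℝ, 0 < δ ∧ ∃ m0 : ℕ, ∀ (M k : ℕ) (U : Finset (Fin M × Fin M)),
      (∀ e ∈ U, e.1 < e.2) → m0 ≤ U.card → 2 * (LNM.verts U).card ≤ k → k + 3 * U.card ≤ M →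
      ∀ (s K : ℕ) (C : MixCircuit (M * M) s) (o : Fin (M * M + s)), C.Computes o (Clique M k) →
        C.LocalLE (LNM.pos U) K → (K : ℝ) ≤ (U.card : ℝ) ^ (1 - ε) →
        (2 : ℝ) ^ ((U.card : ℝ) ^ δ) ≤ C.size) ∧
    ∀ k : ℕ, ∃ c : ℕ, ∀ (M s : ℕ) (C : MixCircuit (M * M) s) (o : Fin (M * M + s)),
      C.Computes o (Clique M (M / 2)) → C.size ≤ 2 ^ (k * lg M ^ k) →
      (LNM.quiet C).ncard ≤ c * lg M ^ c := by
  have hE : EEV_stmt := eev
  refine ⟨fun ε hε => ?_, hE, mix_half2 hE⟩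
  obtain ⟨δ₁, hδ₁, M₁, h₁⟩ := mix_pad ε hε
  obtain ⟨δ₂, hδ₂, M₂, h₂⟩ := clique_final ε hε
  refine ⟨min δ₁ δ₂, lt_min hδ₁ hδ₂, max 1 (max M₁ M₂), ?_⟩
  intro M hM k hk s K hK
  have hM1 : (1 : ℝ) ≤ (M : ℝ) := by exact_mod_cast (le_max_left _ _).trans hM
  have hM₁ : M₁ ≤ M := (le_max_left _ _).trans ((le_max_right _ _).trans hM)
  have hM₂ : M₂ ≤ M := (le_max_right _ _).trans ((le_max_right _ _).trans hM)
  refine ⟨fun j C o hC hp => h₁ M hM₁ k (hk.trans ?_) j s K C o hC hp hK,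
    fun C o hC hp => h₂ M hM₂ k (hk.trans ?_) s K C o hC hp hK⟩
  · exact Real.rpow_le_rpow_of_exponent_le hM1 (min_le_left _ _)
  · exact Real.rpow_le_rpow_of_exponent_le hM1 (min_le_right _ _)

end Pool.Agent.helper69.Reserve.CliqueNegationsEverywhere
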