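import Pool.Agent.helper2.Fermat.Gap

namespace Pool.Agent.Results.MP_37e5fa_nt.PowersOfTwo

/-- If `D` divides the Fermat number `2 ^ (2 ^ m) + 1` and the odd number `b > 1` is congruent to
a power of `2` modulo `D`, then `(log₂ D) ^ 2 < 2 ^ (m + 3) log₂ b`. -/
theorem result (m D b j : ℕ) (hD : D ∣ 2 ^ 2 ^ m + 1) (hb : Odd b) (hb1 : 1 < b)
    (hbj : b ≡ 2 ^ j [MOD D]) :
    Real.logb 2 (D : ℝ) ^ 2 < 2 ^ (m + 3) * Real.logb 2 (b : ℝ) := by
  have h : (b : ZMod D) = 2 ^ j := by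
    have := (ZMod.natCast_eq_natCast_iff b (2 ^ j) D).2 hbj
    push_cast at this
    exact this
  exact Pool.Agent.helper2.Fermat.lattice_gen_real m D b j hb hb1 hD h

end Pool.Agent.Results.MP_37e5fa_nt.PowersOfTwo
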